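import Pool.Agent.Helper29.SR.Props
import Pool.Agent.Helper29.UG.Cross
import Pool.Agent.Helper10.RC.Fin

/-!
# MP_b55b7c_an: stable rank one, the final assembly
-/

open scoped ENNReal NNReal InnerProductSpace ComplexOrder
open Filter Topology

attribute [-instance] CStarMatrix.instAlgebra CStarMatrix.instModule CStarMatrix.instSMul
  CStarMatrix.instMulAction CStarMatrix.instDistribMulAction

noncomputable section
namespace RC
universe u

section
variable {A : Type u} [CStarAlgebra A] [PartialOrder A] [StarOrderedRing A]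

/-- The trivial action of the trivial group. -/
def trivAct : Unit → A ≃⋆ₐ[ℂ] A := fun _ => StarAlgEquiv.refl ℂ A

omit [PartialOrder A] [StarOrderedRing A] in
theorem trivAct_isAct : IsAct (trivAct (A := A)) := fun _ _ _ => rfl

omit [PartialOrder A] [StarOrderedRing A] in
theorem trivAct_isFix : IsFix (trivAct (A := A)) (StarAlgHom.id ℂ A) :=
  ⟨fun _ _ h => h, fun a => ⟨fun _ => ⟨a, rfl⟩, fun _ _ => rfl⟩⟩

/-- An infinite dimensional simple algebra has no finite dimensional representation. -/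
theorem noFin_self (h : NoFinP.{u}) (hs : Simp A) (hinf : ¬ FiniteDimensional ℂ A) : NoFin A :=
  fun r χ hr h1 hm ha hc =>
    h A A Unit trivAct (StarAlgHom.id ℂ A) trivAct_isAct trivAct_isFix hs hinf r χ hr h1 hm ha hc

theorem noFin_fix (h : NoFinP.{u}) {B : Type u} [CStarAlgebra B] [PartialOrder B]
    [StarOrderedRing B] {G : Type} [Group G] [Fintype G] {α : G → A ≃⋆ₐ[ℂ] A} {j : B →⋆ₐ[ℂ] A}
    (hα : IsAct α) (hj : IsFix α j) (hs : Simp A) (hinf : ¬ FiniteDimensional ℂ A) : NoFin B :=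
  fun r χ hr h1 hm ha hc => h A B G α j hα hj hs hinf r χ hr h1 hm ha hc

theorem domT_of (h : DomInvP.{u}) (C : ℝ)
    (hCd : ∀ σ : QTrace A, ∃ φ : TState A, ∀ x : A, 0 ≤ x →
      σ.τ Unit (one1 x) ≤ C * (φ.φ x).re) : ∃ C' : ℝ, 0 ≤ C' ∧ DomT A C' := by
  obtain ⟨C', hC', hD⟩ := h A C hCd Unit trivAct trivAct_isAct
  refine ⟨C', hC', fun σ => ?_⟩
  obtain ⟨φ, σ₀, _, hQ, hd⟩ := hD σ
  exact ⟨φ, σ₀, hQ, hd⟩

theorem domT_mat (h : DomInvMatP.{u}) (C : ℝ) (hC : 0 ≤ C) (hD : DomT A C) (ν : Type)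
    [Fintype ν] [DecidableEq ν] [Nonempty ν] :
    DomT (CStarMatrix ν ν A) (C * Fintype.card ν) := by
  have h1 : DomInv A (fun g : Empty => (g.elim : A ≃⋆ₐ[ℂ] A)) C := by
    intro σ
    obtain ⟨φ, σ₀, hQ, hd⟩ := hD σ
    exact ⟨φ, σ₀, fun g => g.elim, hQ, hd⟩
  have h2 := h A Empty _ C hC h1 ν (fun g : Empty => g.elim) (fun _ _ g => g.elim)
  intro σ
  obtain ⟨φ, σ₀, _, hQ, hd⟩ := h2 σ
  exact ⟨φ, σ₀, hQ, hd⟩

end

/-- Both inequalities. -/
theorem of_sr (hL : LimEqP.{u}) (hC : CritP.{u}) (hR : RedCompP.{u})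
    (hTC : TCompSrP.{u}) (hTD : TDivSrP.{u}) (hTP : TDivPullP.{u}) (hDF : DomTFixP.{u})
    (hMat : MatSRP.{u}) (hNF : NoFinP.{u}) (hDI : DomInvP.{u})
    (hDM : DomInvMatP.{u}) (hX : CrossGP.{u}) (hMS : MatSimpP.{u}) (hSi : SimpP.{u})
    (A : Type u) [CStarAlgebra A] [PartialOrder A] [StarOrderedRing A]
    (hs : IsSimpleC A) (hinf : ¬ FiniteDimensional ℂ A) (hsr : SR1 A) (C : ℝ)
    (hCd : ∀ σ : QTrace A, ∃ φ : TState A, ∀ x : A, 0 ≤ x →
      σ.τ Unit (one1 x) ≤ C * (φ.φ x).re)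
    (G : Type) [Group G] [Fintype G] (α : G → A ≃⋆ₐ[ℂ] A) (hα : IsAct α) :
    (∀ (B : Type u) [CStarAlgebra B] [PartialOrder B] [StarOrderedRing B] (j : B →⋆ₐ[ℂ] A),
      IsFix α j → SR1 B → rc A ≤ rc B) ∧
    (∀ (R : Type u) [CStarAlgebra R] [PartialOrder R] [StarOrderedRing R] (k : A →⋆ₐ[ℂ] R)
      (w : G → R), IsCross α k w → rc A / Fintype.card G ≤ rc R) := by
  classical
  obtain ⟨C', hC', hD⟩ := domT_of hDI C hCd
  have hsA := hSi A hs
  refine ⟨?_, ?_⟩
  · intro B _ _ _ j hj hB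
    obtain ⟨C₂, hC₂, hD₂⟩ := hDF A B G α j hα hj hsA C' hC' hD
    exact fixed_le hL hC A B G α j hα hj hsA (hTC A C' hsr hC' hD)
      (hTD B C₂ hB (noFin_fix hNF hα hj hsA hinf) hC₂ hD₂)
  · intro R _ _ _ k w hk
    obtain ⟨β, jR, hβ, hjR, htr, hdg⟩ := hX A G α R k w hα hk
    have hCm : 0 ≤ C' * Fintype.card G := by positivity
    have hk' : Function.Injective k := by
      intro a b hab
      obtain ⟨f, -, hu⟩ := hk.2.2.2 (k a)
      have h1 : ∀ c : A, k c = k a → (fun g : G => if g = 1 then c else 0) = f := by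
        intro c hc
        refine hu _ ?_
        rw [← hc]
        simp only
        rw [Finset.sum_eq_single 1]
        · have hone : w 1 = 1 := by
            have h2 := hk.2.1 1 1
            rw [mul_one] at h2
            have h3 := (Unitary.mem_iff.mp (hk.1 1)).1
            calc w 1 = star (w 1) * w 1 * w 1 := by rw [h3, one_mul]
              _ = star (w 1) * (w 1 * w 1) := by rw [mul_assoc]
              _ = star (w 1) * w 1 := by rw [← h2]
              _ = 1 := h3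
          rw [if_pos rfl, hone, mul_one]
        · intro g _ hg
          rw [if_neg hg, map_zero, zero_mul]
        · intro h
          exact absurd (Finset.mem_univ _) h
      have h2 := (h1 a rfl).trans (h1 b hab.symm).symm
      have h3 := congrFun h2 1
      simpa using h3
    have hTDA : TDiv A := hTD A C' hsr (noFin_self hNF hsA hinf) hC' hD
    exact cross_le hL hC hR A R G β jR hβ hjR ((hMS A G).1 hsA)
      (hTC _ _ (hMat A hsr G) hCm (domT_mat hDM C' hC' hD G)) (hTP A R k hk' hTDA)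

end RC
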