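import Pool.Agent.Helper29.UG.Props

/-!
# MP_b55b7c_an: stable rank one, the statements of the packets
-/

open scoped ENNReal NNReal InnerProductSpace ComplexOrder
open Filter Topology

attribute [-instance] CStarMatrix.instAlgebra CStarMatrix.instModule CStarMatrix.instSMul
  CStarMatrix.instMulAction CStarMatrix.instDistribMulAction

noncomputable section
namespace RC
universe u

/-- Stable rank one: the invertible elements are dense. -/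
def SR1 (M : Type u) [CStarAlgebra M] : Prop :=
  ∀ (x : M) (ε : ℝ), 0 < ε → ∃ z : M, IsUnit z ∧ ‖x - z‖ < ε

/-- There is no finite dimensional representation. -/
def NoFin (B : Type u) [CStarAlgebra B] : Prop :=
  ∀ (r : ℕ) (χ : B → Matrix (Fin r) (Fin r) ℂ), 0 < r → χ 1 = 1 →
    (∀ x y, χ (x * y) = χ x * χ y) → (∀ x y, χ (x + y) = χ x + χ y) →
    (∀ (c : ℂ) (x), χ (c • x) = c • χ x) → False

/-- `0` for `τ ≤ s` and `1` for `τ ≥ t`. -/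
def ramp (s t τ : ℝ) : ℝ := max 0 (min 1 ((τ - s) / (t - s)))

/-- `x* x`. -/
abbrev sq {M : Type u} [Mul M] [Star M] (x : M) : M := star x * x

section
variable {M : Type u} [CStarAlgebra M] [PartialOrder M] [StarOrderedRing M]

/-- `w` is bounded below by `√δ` on the part of `v* v` above `ε`. -/
def Bel (ε δ : ℝ) (v w : M) : Prop :=
  δ • (cut (sq v) ε * cut (sq v) ε) ≤ cut (sq v) ε * sq w * cut (sq v) ε

variable (M) in
/-- Every quasitrace is dominated, up to the constant `C`, by the quasitrace of a tracial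
state. -/
def DomT (C : ℝ) : Prop :=
  ∀ σ : QTrace M, ∃ (φ : TState M) (σ₀ : QTrace M), IsQ φ σ₀ ∧
    ∀ (κ : Type) [Fintype κ] [DecidableEq κ] (x : CStarMatrix κ κ M), 0 ≤ x →
      σ.dim x ≤ C * Fintype.card κ * σ₀.dim x

/-- `m` is a lower bound for `t d(b) + (1 - t) d(a)` over all decompositions of `φ`. -/
def LBound (φ : TState M) (a b : M) (m : ℝ) : Prop :=
  ∀ (t : ℝ) (ψ₁ ψ₂ : TState M) (σ₁ σ₂ : QTrace M), 0 ≤ t → t ≤ 1 → IsQ ψ₁ σ₁ → IsQ ψ₂ σ₂ →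
    (∀ x, φ.φ x = (t : ℂ) * ψ₁.φ x + (1 - (t : ℂ)) * ψ₂.φ x) →
    m ≤ t * σ₁.dim (one1 b) + (1 - t) * σ₂.dim (one1 a)

end

/-! ## Algebra -/

/-- An element agrees with an invertible element on the spectral part above `ε`. -/
def InvExtP : Prop := ∀ (M : Type u) [CStarAlgebra M] [PartialOrder M] [StarOrderedRing M],
  SR1 M → ∀ (v : M) (ε : ℝ), 0 < ε → ∃ y : M, IsUnit y ∧ ∀ F : ℝ → ℝ, Continuous F →
    (∀ t ≤ ε, F t = 0) → y * cfc F (sq v) = v * cfc F (sq v)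

def H1P : Prop := ∀ (M : Type u) [CStarAlgebra M] [PartialOrder M] [StarOrderedRing M],
  SR1 M → ∀ (h s : M) (lam η : ℝ), 0 < lam → 0 < η →
  ∃ g : M, ‖g - s‖ ≤ η ∧ IsUnit (lam • (1 : M) + h * g * h)

/-- A small change of `b X₀ a` makes it bounded below on the part of `b X₁ a` above `ε`. -/
def CoreStepP : Prop := ∀ (M : Type u) [CStarAlgebra M] [PartialOrder M] [StarOrderedRing M],
  SR1 M → ∀ (a b X₀ X₁ : M) (ε κ : ℝ), 0 < ε → 0 < κ →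
  ∃ (X : M) (δ : ℝ), 0 < δ ∧ ‖b * X * a - b * X₀ * a‖ ≤ κ ∧ Bel ε δ (b * X₁ * a) (b * X * a)

def CoreP : Prop := ∀ (M : Type u) [CStarAlgebra M] [PartialOrder M] [StarOrderedRing M],
  SR1 M → ∀ (a b : M) (ε : ℝ), 0 < ε → ∀ (n : ℕ) (X : Fin n → M),
  ∃ (Y : M) (δ : ℝ), 0 < δ ∧ ∀ i, Bel ε δ (b * X i * a) (b * Y * a)

/-- Stable rank one passes to matrices. -/
def MatSRP : Prop := ∀ (M : Type u) [CStarAlgebra M] [PartialOrder M] [StarOrderedRing M],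
  SR1 M → ∀ (ν : Type) [Fintype ν] [DecidableEq ν], SR1 (CStarMatrix ν ν M)

/-! ## Rank functions -/

/-- Comparison of values of a trace with ranks. -/
def RkP : Prop := ∀ (M : Type u) [CStarAlgebra M] [PartialOrder M] [StarOrderedRing M]
  (φ : TState M) (σ : QTrace M), IsQ φ σ → ∀ c : M, 0 ≤ c → ∀ g G : ℝ → ℝ, Continuous g →
  Continuous G → (∀ t, 0 ≤ g t) → (∀ t, 0 ≤ G t) →
  ((∀ t, g t ≤ 1) → (∀ t, G t = 0 → g t = 0) →
    (φ.φ (cfc g c)).re ≤ σ.dim (one1 (cfc G c))) ∧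
  ((∀ t, G t ≠ 0 → 1 ≤ g t) → σ.dim (one1 (cfc G c)) ≤ (φ.φ (cfc g c)).re)

def PassP : Prop := ∀ (M : Type u) [CStarAlgebra M] [PartialOrder M] [StarOrderedRing M]
  (v w : M) (ε δ θ : ℝ), 0 < δ → 0 < θ → Bel ε δ v w →
  ∃ s : ℝ, 0 < s ∧ ∀ σ : QTrace M,
    σ.dim (one1 (cut (cut (sq v) ε * cut (sq v) ε) θ)) ≤ σ.dim (one1 (cut (sq w) s))

/-- If `w` is small on `y` and bounded below on `z` then the ranks of `y` and `z` add up. -/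
def DisjP : Prop := ∀ (M : Type u) [CStarAlgebra M] [PartialOrder M] [StarOrderedRing M]
  (w y z c : M) (δ θ C : ℝ), 0 ≤ y → IsSelfAdjoint z → 0 ≤ c → 0 < δ → 0 < θ →
  ‖w * y * star w‖ ≤ δ * θ / 6 → δ • (z * z) ≤ z * sq w * z → y + z * z ≤ C • c →
  ∀ σ : QTrace M, σ.dim (one1 (cut y θ)) + σ.dim (one1 (cut (z * z) θ)) ≤ σ.dim (one1 c)

/-- Compactness of the set of tracial states. -/
def CoverP : Prop := ∀ (M : Type u) [CStarAlgebra M] [PartialOrder M] [StarOrderedRing M]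
  (S : Type u) (f : S → M), (∀ φ : TState M, ∃ s, 0 < (φ.φ (f s)).re) →
  ∃ T : Finset S, ∀ φ : TState M, ∃ s ∈ T, 0 < (φ.φ (f s)).re

/-! ## Local comparison at one tracial state -/

/-- `RankP` with the tracial state. -/
def RankTP : Prop := ∀ (M : Type u) [CStarAlgebra M] [PartialOrder M] [StarOrderedRing M]
  (φ : TState M) (H : Type u) [NormedAddCommGroup H] [InnerProductSpace ℂ H] [CompleteSpace H]
  (π : M →⋆ₐ[ℂ] (H →L[ℂ] H)) (ρ : M → (H →L[ℂ] H)) (ξ : H), IsRep φ π ρ ξ →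
  ∀ z, CP (Set.range ρ) z → z ≠ 0 → ∃ (ψ : TState M) (σ : QTrace M), IsQ ψ σ ∧
    (∀ x, (tr ξ z : ℂ) * ψ.φ x = ⟪ξ, z (π x ξ)⟫_ℂ) ∧
    ∀ (a : M) (p : H →L[ℂ] H), 0 ≤ a →
      p ∈ (Set.range ρ).centralizer → IsStarProjection p → p * π a = π a →
      (∀ y : H →L[ℂ] H, y * π a = 0 → y * p = 0) →
      σ.dim (one1 a) * tr ξ z = tr ξ (z * p)

def LocAP : Prop := ∀ (M : Type u) [CStarAlgebra M] [PartialOrder M] [StarOrderedRing M]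
  (φ : TState M) (H : Type u) [NormedAddCommGroup H] [InnerProductSpace ℂ H] [CompleteSpace H]
  (π : M →⋆ₐ[ℂ] (H →L[ℂ] H)) (ρ : M → (H →L[ℂ] H)) (ξ : H), IsRep φ π ρ ξ →
  ∀ (a b : M) (m : ℝ) (p q : H →L[ℂ] H), 0 ≤ a → 0 ≤ b →
  p ∈ (Set.range ρ).centralizer → IsStarProjection p → p * π a = π a →
  (∀ y : H →L[ℂ] H, y * π a = 0 → y * p = 0) →
  q ∈ (Set.range ρ).centralizer → IsStarProjection q → q * π b = π b →
  (∀ y : H →L[ℂ] H, y * π b = 0 → y * q = 0) →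
  LBound φ a b m → ∃ v ∈ (Set.range ρ).centralizer, IsStarProjection (star v * v) ∧
    q * v = v ∧ v * p = v ∧ m ≤ tr ξ (star v * v)

def LocBP : Prop := ∀ (M : Type u) [CStarAlgebra M] [PartialOrder M] [StarOrderedRing M]
  (φ : TState M) (H : Type u) [NormedAddCommGroup H] [InnerProductSpace ℂ H] [CompleteSpace H]
  (π : M →⋆ₐ[ℂ] (H →L[ℂ] H)) (ρ : M → (H →L[ℂ] H)) (ξ : H), IsRep φ π ρ ξ →
  ∀ (a b : M) (p q : H →L[ℂ] H), 0 ≤ a → 0 ≤ b →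
  p ∈ (Set.range ρ).centralizer → IsStarProjection p → p * π a = π a →
  (∀ y : H →L[ℂ] H, y * π a = 0 → y * p = 0) →
  q ∈ (Set.range ρ).centralizer → IsStarProjection q → q * π b = π b →
  (∀ y : H →L[ℂ] H, y * π b = 0 → y * q = 0) →
  ∀ v ∈ (Set.range ρ).centralizer, IsStarProjection (star v * v) → q * v = v → v * p = v →
  ∀ ε s : ℝ, 0 < s → 4 * s ≤ ε → ∃ X : M,
    tr ξ (star v * v) - ε < (φ.φ (cfc (ramp s (2 * s)) (sq (b * X * a)))).re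

/-- Local comparison. -/
def LocMaxP : Prop := ∀ (M : Type u) [CStarAlgebra M] [PartialOrder M] [StarOrderedRing M]
  (φ : TState M) (a b : M) (m : ℝ), 0 ≤ a → 0 ≤ b → LBound φ a b m →
  ∀ ε s : ℝ, 0 < s → 4 * s ≤ ε → ∃ X : M,
    m - ε < (φ.φ (cfc (ramp s (2 * s)) (sq (b * X * a)))).re

/-! ## Tracial comparison -/

def SelP : Prop := ∀ (M : Type u) [CStarAlgebra M] [PartialOrder M] [StarOrderedRing M]
  (a b : M), 0 ≤ a → 0 ≤ b →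
  (∀ (φ : TState M) (σ : QTrace M), IsQ φ σ → σ.dim (one1 a) < σ.dim (one1 b)) →
  ∀ s t ε : ℝ, 0 < s → s < t → 0 < ε → ∃ (n : ℕ) (X : Fin n → M) (r C : ℝ), 0 < r ∧
    (∀ k, sq (b * X k * a) ≤ C • cut a s) ∧
    ∀ φ : TState M, ∃ k, (φ.φ (cfc (ramp s t) a)).re - ε <
      (φ.φ (cfc (ramp r (2 * r)) (sq (b * X k * a)))).re

def XMaxP : Prop := ∀ (M : Type u) [CStarAlgebra M] [PartialOrder M] [StarOrderedRing M],
  SR1 M → ∀ a b : M, 0 ≤ a → 0 ≤ b →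
  (∀ (φ : TState M) (σ : QTrace M), IsQ φ σ → σ.dim (one1 a) < σ.dim (one1 b)) →
  ∀ δ ε : ℝ, 0 < δ → 0 < ε → ∃ (X : M) (η : ℝ), 0 < η ∧ ∀ φ : TState M,
    (φ.φ (cfc (ramp (δ / 2) δ) a *
      (1 - cfc (ramp (η / 2) η) (cfc (ramp (δ / 2) δ) a * sq (b * X * a) *
        cfc (ramp (δ / 2) δ) a)) * cfc (ramp (δ / 2) δ) a)).re ≤ ε

def TTrP : Prop := ∀ (M : Type u) [CStarAlgebra M] [PartialOrder M] [StarOrderedRing M],
  SR1 M → ∀ a b : M, 0 ≤ a → 0 ≤ b →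
  (∀ (φ : TState M) (σ : QTrace M), IsQ φ σ → σ.dim (one1 a) < σ.dim (one1 b)) →
  ∀ δ ε : ℝ, 0 < δ → 0 < ε → ∃ y h : M, 0 ≤ h ∧ a ≤ star y * b * y + h + δ • (1 : M) ∧
    ∀ φ : TState M, (φ.φ h).re ≤ ε

/-- Traces of a matrix algebra. -/
def MatTP : Prop := ∀ (M : Type u) [CStarAlgebra M] [PartialOrder M] [StarOrderedRing M]
  (ν : Type) [Fintype ν] [DecidableEq ν] [Nonempty ν],
  (∀ (ψ' : TState (CStarMatrix ν ν M)) (σ' : QTrace (CStarMatrix ν ν M)), IsQ ψ' σ' →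
    ∃ (ψ : TState M) (σ : QTrace M), IsQ ψ σ ∧
      (∀ T : CStarMatrix ν ν M, ψ'.φ T = (Fintype.card ν : ℂ)⁻¹ * ∑ i, ψ.φ (T i i)) ∧
      ∀ T : CStarMatrix ν ν M, 0 ≤ T → σ'.dim (one1 T) = σ.dim T / Fintype.card ν) ∧
  ∀ (ψ : TState M) (σ : QTrace M), IsQ ψ σ →
    ∃ (ψ' : TState (CStarMatrix ν ν M)) (σ' : QTrace (CStarMatrix ν ν M)), IsQ ψ' σ' ∧
      (∀ T : CStarMatrix ν ν M, ψ'.φ T = (Fintype.card ν : ℂ)⁻¹ * ∑ i, ψ.φ (T i i)) ∧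
      ∀ T : CStarMatrix ν ν M, 0 ≤ T → σ'.dim (one1 T) = σ.dim T / Fintype.card ν

def TTrMP : Prop := ∀ (M : Type u) [CStarAlgebra M] [PartialOrder M] [StarOrderedRing M],
  SR1 M → ∀ (ι κ : Type) [Fintype ι] [DecidableEq ι] [Fintype κ] [DecidableEq κ]
    (a : CStarMatrix ι ι M) (b : CStarMatrix κ κ M), 0 ≤ a → 0 ≤ b →
  (∀ (φ : TState M) (σ : QTrace M), IsQ φ σ → σ.dim a < σ.dim b) →
  ∀ δ ε : ℝ, 0 < δ → 0 < ε → ∃ (y : CStarMatrix κ ι M) (h : CStarMatrix ι ι M), 0 ≤ h ∧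
    a ≤ y.conjTranspose * b * y + h + δ • (1 : CStarMatrix ι ι M) ∧
    ∀ (φ : TState M) (σ : QTrace M), IsQ φ σ → σ.τ ι h ≤ ε

def TCompSrP : Prop := ∀ (M : Type u) [CStarAlgebra M] [PartialOrder M] [StarOrderedRing M]
  (C : ℝ), SR1 M → 0 ≤ C → DomT M C → TComp M

/-! ## Tracial divisibility -/

def MinCP : Prop := ∀ (M : Type u) [CStarAlgebra M] [PartialOrder M] [StarOrderedRing M],
  SR1 M → ∀ (a b : M) (m : ℝ), 0 ≤ a → 0 ≤ b →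
  (∀ (φ : TState M) (σ : QTrace M), IsQ φ σ → m ≤ σ.dim (one1 a) ∧ m ≤ σ.dim (one1 b)) →
  ∀ ε : ℝ, 0 < ε → ∃ (X : M) (s : ℝ), 0 < s ∧ ∀ (φ : TState M) (σ : QTrace M), IsQ φ σ →
    m - ε ≤ σ.dim (one1 (cut (sq (b * X * a)) s))

def MinMP : Prop := ∀ (M : Type u) [CStarAlgebra M] [PartialOrder M] [StarOrderedRing M],
  SR1 M → ∀ (ι κ : Type) [Fintype ι] [DecidableEq ι] [Fintype κ] [DecidableEq κ]
    (a : CStarMatrix ι ι M) (b : CStarMatrix κ κ M) (m : ℝ), 0 ≤ a → 0 ≤ b →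
  (∀ (φ : TState M) (σ : QTrace M), IsQ φ σ → m ≤ σ.dim a ∧ m ≤ σ.dim b) →
  ∀ ε : ℝ, 0 < ε → ∃ (X : CStarMatrix κ ι M) (s : ℝ), 0 < s ∧
    ∀ (φ : TState M) (σ : QTrace M), IsQ φ σ →
      m - ε ≤ σ.dim (cut ((b * X * a).conjTranspose * (b * X * a)) s)

def TD3BP : Prop := ∀ (B : Type u) [CStarAlgebra B] [PartialOrder B] [StarOrderedRing B],
  NoFin B → ∀ (φ : TState B) (k : ℕ) (η : ℝ), 0 < η → ∃ (e : B) (x : Fin (2 ^ k) → B),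
    0 ≤ e ∧ e ≤ 1 ∧ (∀ i, ‖x i‖ ≤ 1) ∧ (φ.φ (HD e x)).re < η

/-- An element of rank at least `1/2^k` everywhere and almost `1/2^k` near `φ`. -/
def UBdP : Prop := ∀ (B : Type u) [CStarAlgebra B] [PartialOrder B] [StarOrderedRing B],
  NoFin B → ∀ (φ : TState B) (k : ℕ) (ε : ℝ), 0 < ε →
  ∃ (y : CStarMatrix (Unit ⊕ Unit) (Unit ⊕ Unit) B) (f : B), 0 ≤ y ∧
    (∀ σ : QTrace B, 1 / 2 ^ k ≤ σ.dim y) ∧ 0 < (φ.φ f).re ∧
    ∀ (ψ : TState B) (σ : QTrace B), IsQ ψ σ → 0 < (ψ.φ f).re → σ.dim y ≤ 1 / 2 ^ k + ε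

def NearCP : Prop := ∀ (B : Type u) [CStarAlgebra B] [PartialOrder B] [StarOrderedRing B],
  SR1 B → NoFin B → ∀ (k : ℕ) (ε : ℝ), 0 < ε → ∃ (f : B) (s : ℝ), 0 ≤ f ∧ 0 < s ∧
    ∀ (φ : TState B) (σ : QTrace B), IsQ φ σ →
      1 / 2 ^ k - ε ≤ σ.dim (one1 (cut f s)) ∧ σ.dim (one1 f) ≤ 1 / 2 ^ k + ε

def TDivSrP : Prop := ∀ (B : Type u) [CStarAlgebra B] [PartialOrder B] [StarOrderedRing B]
  (C : ℝ), SR1 B → NoFin B → 0 ≤ C → DomT B C → TDiv B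

def TDivPullP : Prop := ∀ (A : Type u) [CStarAlgebra A] [PartialOrder A] [StarOrderedRing A]
  (R : Type u) [CStarAlgebra R] [PartialOrder R] [StarOrderedRing R] (k : A →⋆ₐ[ℂ] R),
  Function.Injective k → TDiv A → TDiv R

def DomTFixP : Prop := ∀ (A : Type u) [CStarAlgebra A] [PartialOrder A] [StarOrderedRing A]
  (B : Type u) [CStarAlgebra B] [PartialOrder B] [StarOrderedRing B]
  (G : Type) [Group G] [Fintype G] (α : G → A ≃⋆ₐ[ℂ] A) (j : B →⋆ₐ[ℂ] A), IsAct α → IsFix α j →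
  Simp A → ∀ C : ℝ, 0 ≤ C → DomT A C → ∃ C' : ℝ, 0 ≤ C' ∧ DomT B C'

end RC
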